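import Mathlib

/-!
# Parts for MP_467638_an (optimality of sketch-and-solve): statements

All measures are standard Gaussians: `gK K ι` is the law of a vector of independent standard `K`-Gaussians
(real dimension `β = finrank ℝ K` each).
-/

set_option autoImplicit false

open MeasureTheory ProbabilityTheory Filter Topology
open scoped ENNReal

namespace Pool.Agent.X19.SS

/-- the standard Gaussian measure on `ι → K` -/
noncomputable def gK (K : Type) [RCLike K] [MeasurableSpace K] [BorelSpace K] (ι : Type) [Fintype ι] :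
    Measure (ι → K) := Measure.pi (fun _ => stdGaussian K)

/-- squared Euclidean norm -/
noncomputable def nsq {K : Type} [RCLike K] {ι : Type} [Fintype ι] (x : ι → K) : ℝ≥0∞ := ∑ i, ‖x i‖ₑ ^ 2

/-- squared distance of `s` to the span of the family `S` -/
noncomputable def dist2 {K : Type} [RCLike K] {ι : Type} [Fintype ι] {m : ℕ} (S : Fin m → ι → K) (s : ι → K) :
    ℝ≥0∞ := ⨅ v : Fin m → K, nsq (s + ∑ k, v k • S k)

/-- (A1) a co-isometry maps standard Gaussian to standard Gaussian (compare characteristic functions: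
`charFun_stdGaussian`, `Measure.ext_of_charFun`). -/
def S_A1 : Prop := ∀ (E F : Type) [NormedAddCommGroup E] [InnerProductSpace ℝ E] [FiniteDimensional ℝ E]
  [MeasurableSpace E] [BorelSpace E] [NormedAddCommGroup F] [InnerProductSpace ℝ F] [FiniteDimensional ℝ F]
  [MeasurableSpace F] [BorelSpace F] (L : E → F) (J : F → E), Measurable L →
  (∀ x t, inner ℝ (L x) t = inner ℝ x (J t)) → (∀ t, ‖J t‖ = ‖t‖) → (stdGaussian E).map L = stdGaussian F

/-- (A2) second moment. -/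
def S_A2 : Prop := ∀ (E : Type) [NormedAddCommGroup E] [InnerProductSpace ℝ E] [FiniteDimensional ℝ E]
  [MeasurableSpace E] [BorelSpace E], ∫⁻ x, ‖x‖ₑ ^ 2 ∂(stdGaussian E) = (Module.finrank ℝ E : ℝ≥0∞)

/-- (A3) inverse second moment: `E |x|^(-2) = 1/(D-2)`. Proof: `1/|x|^2 = ∫_0^∞ exp(-u|x|^2) du`, Tonelli,
`E exp(-u|x|^2) = (1+2u)^(-D/2)` (product of one-dimensional integrals by `stdGaussian_eq_map_pi_orthonormalBasis`
and `integral_fintype_prod_eq_prod`, `integral_gaussian`), `∫_0^∞ (1+2u)^(-D/2) du = 1/(D-2)`. -/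
def S_A3 : Prop := ∀ (E : Type) [NormedAddCommGroup E] [InnerProductSpace ℝ E] [FiniteDimensional ℝ E]
  [MeasurableSpace E] [BorelSpace E], 2 < Module.finrank ℝ E →
  ENNReal.ofReal (1 / ((Module.finrank ℝ E : ℝ) - 2)) ≤ ∫⁻ x, (‖x‖ₑ ^ 2)⁻¹ ∂(stdGaussian E)

/-- (A4) proper subspaces are null. -/
def S_A4 : Prop := ∀ (E : Type) [NormedAddCommGroup E] [InnerProductSpace ℝ E] [FiniteDimensional ℝ E]
  [MeasurableSpace E] [BorelSpace E] (W : Submodule ℝ E), W ≠ ⊤ → stdGaussian E (W : Set E) = 0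

/-- (B1) `gK` is `stdGaussian` of the Euclidean space (as in `map_pi_eq_stdGaussian`, `charFun_pi`). -/
def S_B1 : Prop := ∀ (K : Type) [RCLike K] [MeasurableSpace K] [BorelSpace K] (ι : Type) [Fintype ι],
  (gK K ι).map (WithLp.toLp 2) = stdGaussian (EuclideanSpace K ι)

/-- (B2) unitary invariance. -/
def S_B2 : Prop := ∀ (K : Type) [RCLike K] [MeasurableSpace K] [BorelSpace K] (ι κ : Type) [Fintype ι] [Fintype κ]
  (U : EuclideanSpace K ι ≃ₗᵢ[K] EuclideanSpace K κ),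
  MeasurePreserving (fun x : ι → K => (WithLp.ofLp (U (WithLp.toLp 2 x)) : κ → K)) (gK K ι) (gK K κ)

/-- (B3) second moment of a functional. -/
def S_B3 : Prop := ∀ (K : Type) [RCLike K] [MeasurableSpace K] [BorelSpace K] (ι : Type) [Fintype ι] (w : ι → K),
  ∫⁻ x, ‖∑ i, star (w i) * x i‖ₑ ^ 2 ∂(gK K ι) = (Module.finrank ℝ K : ℝ≥0∞) * nsq w

/-- (C) Bayes bound in one direction: reflect `(x, z)` in the vector `w = (v, -c Σ v_k S_k)` (unitary, keeps the
data `Σ c x_k S_k + z`), parallelogram law, (B3). -/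
def S_C : Prop := ∀ (K : Type) [RCLike K] [MeasurableSpace K] [BorelSpace K] (r l : ℕ) (S : Fin r → Fin l → K)
  (g : (Fin l → K) → K), Measurable g → ∀ (c : ℝ), 0 < c → ∀ (v : Fin r → K) (j : Fin r), v j = 1 →
  (Module.finrank ℝ K : ℝ≥0∞) / (nsq v / ENNReal.ofReal (c ^ 2) + nsq (∑ k, v k • S k)) ≤
    ∫⁻ x, ∫⁻ z, ‖(c : K) * x j - g (∑ k, ((c : K) * x k) • S k + z)‖ₑ ^ 2 ∂(gK K (Fin l)) ∂(gK K (Fin r))

/-- (D1) inverse second moment of the distance to a span. -/
def S_D1 : Prop := ∀ (K : Type) [RCLike K] [MeasurableSpace K] [BorelSpace K] (m l : ℕ) (S : Fin m → Fin l → K),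
  LinearIndependent K S → 2 + Module.finrank ℝ K * m < Module.finrank ℝ K * l →
  ENNReal.ofReal (1 / ((Module.finrank ℝ K : ℝ) * ((l : ℝ) - m) - 2)) ≤ ∫⁻ s, (dist2 S s)⁻¹ ∂(gK K (Fin l))

/-- (D2) independence almost surely. -/
def S_D2 : Prop := ∀ (K : Type) [RCLike K] [MeasurableSpace K] [BorelSpace K] (m : ℕ) (ι : Type) [Fintype ι],
  m ≤ Fintype.card ι →
  ∀ᵐ S ∂(Measure.pi (fun _ : Fin m => gK K ι)), LinearIndependent K S

/-- (D3) second moment of the distance to a span. -/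
def S_D3 : Prop := ∀ (K : Type) [RCLike K] [MeasurableSpace K] [BorelSpace K] (m : ℕ) (ι : Type) [Fintype ι]
  (S : Fin m → ι → K), LinearIndependent K S → m ≤ Fintype.card ι →
  ∫⁻ s, dist2 S s ∂(gK K ι) = (Module.finrank ℝ K : ℝ≥0∞) * ((Fintype.card ι - m : ℕ) : ℝ≥0∞)

/-- (G) Gaussian noise adds: `E |a + Σ u_j G_j|^2 = |a|^2 + β q Σ |u_j|^2` (induction on `r` or independence). -/
def S_G : Prop := ∀ (K : Type) [RCLike K] [MeasurableSpace K] [BorelSpace K] (r q : ℕ) (u : Fin r → K)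
  (a : Fin q → K), ∫⁻ G, nsq (a + ∑ j, u j • G j) ∂(Measure.pi (fun _ : Fin r => gK K (Fin q))) =
    nsq a + (Module.finrank ℝ K : ℝ≥0∞) * q * nsq u

end Pool.Agent.X19.SS
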