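import Mathlib

set_option autoImplicit false

open scoped Matrix

namespace Pool.Agent.X19.SS

/-- `P` is the Moore-Penrose inverse of `A` (the four Penrose equations). -/
structure IsMP {K : Type} [RCLike K] {n d : ℕ} (A : Matrix (Fin n) (Fin d) K) (P : Matrix (Fin d) (Fin n) K) : Prop where
  h1 : A * P * A = A
  h2 : P * A * P = P
  h3 : (A * P)ᴴ = A * P
  h4 : (P * A)ᴴ = P * A

/-- (MP) existence of the Moore-Penrose inverse -/
def S_MP : Prop := ∀ (K : Type) [RCLike K] (n d : ℕ) (A : Matrix (Fin n) (Fin d) K),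
  ∃ P : Matrix (Fin d) (Fin n) K, IsMP A P

end Pool.Agent.X19.SS
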