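import Pool.Agent.X19.SS.Cons

set_option autoImplicit false

open MeasureTheory Filter Topology
open scoped ENNReal

namespace Pool.Agent.X19.SS

section
variable {X Y : Type} [MeasurableSpace X] [MeasurableSpace Y] (μ : Measure X) (ν : Measure Y)
  [IsProbabilityMeasure μ] [IsProbabilityMeasure ν]

theorem abs1 (D : Y → ℝ≥0∞) (e : X → Y → ℝ≥0∞) (he : Measurable fun p : X × Y => e p.1 p.2) :
    ∫⁻ x, ∫⁻ M, (D M + e x M) ∂ν ∂μ = ∫⁻ M, D M ∂ν + ∫⁻ x, ∫⁻ M, e x M ∂ν ∂μ := by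
  have : ∀ x, ∫⁻ M, (D M + e x M) ∂ν = ∫⁻ M, D M ∂ν + ∫⁻ M, e x M ∂ν := fun x =>
    lintegral_add_right _ (he.comp measurable_prodMk_left)
  simp only [this]
  rw [lintegral_add_left measurable_const, lintegral_const, measure_univ, mul_one]

theorem abs2 {n : ℕ} (a : ℝ≥0∞) (e : Fin n → X → Y → ℝ≥0∞)
    (he : ∀ j, Measurable fun p : X × Y => e j p.1 p.2) :
    ∫⁻ x, ∫⁻ M, a * (1 + ∑ j, e j x M) ∂ν ∂μ = a * (1 + ∑ j, ∫⁻ x, ∫⁻ M, e j x M ∂ν ∂μ) := by
  have h1 : ∀ x, ∫⁻ M, a * (1 + ∑ j, e j x M) ∂ν = a * (1 + ∑ j, ∫⁻ M, e j x M ∂ν) := by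
    intro x
    have hm : ∀ j, Measurable fun M => e j x M := fun j => (he j).comp measurable_prodMk_left
    rw [lintegral_const_mul _ ((Finset.measurable_sum _ fun j _ => hm j).const_add 1),
      lintegral_add_left measurable_const, lintegral_const, measure_univ, mul_one,
      lintegral_finsetSum _ fun j _ => hm j]
  simp only [h1]
  have hm : ∀ j, Measurable fun x => ∫⁻ M, e j x M ∂ν := fun j => (he j).lintegral_prod_right'
  rw [lintegral_const_mul _ ((Finset.measurable_sum _ fun j _ => hm j).const_add 1),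
      lintegral_add_left measurable_const, lintegral_const, measure_univ, mul_one,
      lintegral_finsetSum _ fun j _ => hm j]

theorem abs3 {n : ℕ} (F : X → (Fin (n + 1) → Y) → ℝ≥0∞)
    (hF : Measurable fun p : X × (Fin (n + 1) → Y) => F p.1 p.2) :
    ∫⁻ x, ∫⁻ M, F x M ∂(Measure.pi fun _ => ν) ∂μ =
      ∫⁻ S, ∫⁻ x, ∫⁻ z, F x (Fin.cons z S) ∂ν ∂μ ∂(Measure.pi fun _ : Fin n => ν) := by
  have h1 : ∀ x, ∫⁻ M, F x M ∂(Measure.pi fun _ => ν) =
      ∫⁻ S, ∫⁻ z, F x (Fin.cons z S) ∂ν ∂(Measure.pi fun _ : Fin n => ν) :=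
    fun x => lintegral_cons ν n _ (hF.comp measurable_prodMk_left)
  simp only [h1]
  rw [lintegral_lintegral_swap]
  refine Measurable.aemeasurable ?_
  have h2 : Measurable fun q : (X × (Fin n → Y)) × Y => F q.1.1 (Fin.cons q.2 q.1.2) := by
    have h3 : Measurable fun q : (X × (Fin n → Y)) × Y => ((q.1.1, (Fin.cons q.2 q.1.2 : Fin (n + 1) → Y))) := by
      refine Measurable.prodMk (by fun_prop) ?_
      exact cons_meas.comp ((measurable_snd.comp measurable_fst).prodMk measurable_snd)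
    exact hF.comp h3
  exact h2.lintegral_prod_right'

/-- lower bound for an integral of an almost everywhere large function -/
theorem abs4 (a : ℝ≥0∞) (f : X → ℝ≥0∞) (h : ∀ᵐ x ∂μ, a ≤ f x) : a ≤ ∫⁻ x, f x ∂μ := by
  calc a = ∫⁻ _, a ∂μ := by rw [lintegral_const, measure_univ, mul_one]
    _ ≤ _ := lintegral_mono_ae h

end

end Pool.Agent.X19.SS
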