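import Pool.Agent.X19.SS.R4
import Pool.Agent.X19.SS.Abs

set_option autoImplicit false

open MeasureTheory ProbabilityTheory Filter Topology
open scoped ENNReal

namespace Pool.Agent.X19.SS

section
variable {K : Type} [RCLike K] [MeasurableSpace K] [BorelSpace K]

/-- the estimation error of the algorithm -/
noncomputable def err {r l : ℕ} (g : (Fin r → Fin l → K) × (Fin l → K) → (Fin r → K)) (c : ℝ) (x : Fin r → K)
    (M : Fin (r + 1) → Fin l → K) : Fin r → K :=
  fun j => (c : K) * x j - g (fun k => M k.succ, ∑ k, ((c : K) * x k) • M k.succ + M 0) j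

/-- the average loss after rotation -/
noncomputable def J {r l : ℕ} (q : ℕ) (g : (Fin r → Fin l → K) × (Fin l → K) → (Fin r → K)) (c : ℝ) : ℝ≥0∞ :=
  ∫⁻ x, ∫⁻ M, ∫⁻ N, nsq (M 0 + ∑ k : Fin r, err g c x M k • M k.succ) +
      nsq (N 0 + ∑ k : Fin r, err g c x M k • N k.succ)
    ∂(Measure.pi fun _ : Fin (r + 1) => gK K (Fin q)) ∂(Measure.pi fun _ : Fin (r + 1) => gK K (Fin l))
    ∂(gK K (Fin r))

omit [MeasurableSpace K] [BorelSpace K] in
theorem nsq_meas_aux : True := trivial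

theorem nsq_meas {ι : Type} [Fintype ι] : Measurable (nsq : (ι → K) → ℝ≥0∞) := by
  unfold nsq
  exact Finset.measurable_sum _ fun i _ => ((measurable_pi_apply i).enorm).pow_const 2

/-- inner integral over the unobserved block -/
theorem inner_block (hG : S_G) {r : ℕ} (q : ℕ) (u : Fin r → K) :
    ∫⁻ N, nsq (N 0 + ∑ k : Fin r, u k • N k.succ) ∂(Measure.pi fun _ : Fin (r + 1) => gK K (Fin q)) =
      (Module.finrank ℝ K : ℝ≥0∞) * q * (1 + nsq u) := by
  have h := hG K (r + 1) q (Fin.cons 1 u) 0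
  have h1 : ∀ N : Fin (r + 1) → Fin q → K, (0 : Fin q → K) + ∑ j, (Fin.cons 1 u : Fin (r + 1) → K) j • N j =
      N 0 + ∑ k : Fin r, u k • N k.succ := by
    intro N
    rw [Fin.sum_univ_succ]
    simp
  simp only [h1] at h
  rw [h]
  have h2 : nsq (0 : Fin q → K) = 0 := by simp [nsq]
  have h3 : nsq (Fin.cons 1 u : Fin (r + 1) → K) = 1 + nsq u := by
    unfold nsq
    rw [Fin.sum_univ_succ]
    simp
  rw [h2, h3, zero_add]

theorem err_meas {r l : ℕ} (g : (Fin r → Fin l → K) × (Fin l → K) → (Fin r → K)) (hg : Measurable g) (c : ℝ) :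
    Measurable fun p : (Fin r → K) × (Fin (r + 1) → Fin l → K) => err g c p.1 p.2 := by
  unfold err
  refine measurable_pi_lambda _ fun j => ?_
  refine Measurable.sub (by fun_prop) ?_
  refine (measurable_pi_apply j).comp (hg.comp ?_)
  refine Measurable.prodMk (by fun_prop) ?_
  refine Measurable.add (Finset.measurable_sum _ fun k _ => ?_) (by fun_prop)
  refine measurable_pi_lambda _ fun i => ?_
  simp only [Pi.smul_apply, smul_eq_mul]
  fun_prop

theorem dist2_meas {r l : ℕ} :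
    Measurable fun p : (Fin l → K) × (Fin r → Fin l → K) => dist2 p.2 p.1 := by
  unfold dist2
  have hu : UpperSemicontinuous fun p : (Fin l → K) × (Fin r → Fin l → K) =>
      ⨅ v : Fin r → K, nsq (p.1 + ∑ k, v k • p.2 k) := by
    refine upperSemicontinuous_iInf fun v => Continuous.upperSemicontinuous ?_
    unfold nsq
    fun_prop
  exact hu.measurable

theorem J_eq (hG : S_G) {r l : ℕ} (q : ℕ)
    (g : (Fin r → Fin l → K) × (Fin l → K) → (Fin r → K)) (c : ℝ) :
    J q g c = ∫⁻ x, ∫⁻ M, (nsq (M 0 + ∑ k : Fin r, err g c x M k • M k.succ) +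
      (Module.finrank ℝ K : ℝ≥0∞) * q * (1 + nsq (err g c x M)))
      ∂(Measure.pi fun _ : Fin (r + 1) => gK K (Fin l)) ∂(gK K (Fin r)) := by
  unfold J
  refine lintegral_congr fun x => lintegral_congr fun M => ?_
  rw [lintegral_add_left measurable_const, lintegral_const, measure_univ, mul_one, inner_block hG]

theorem J_ge1 (hG : S_G) {r l : ℕ} (q : ℕ)
    (g : (Fin r → Fin l → K) × (Fin l → K) → (Fin r → K)) (hg : Measurable g) (c : ℝ) :
    ∫⁻ M, dist2 (fun k : Fin r => M k.succ) (M 0) ∂(Measure.pi fun _ : Fin (r + 1) => gK K (Fin l)) +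
      ∫⁻ x, ∫⁻ M, (Module.finrank ℝ K : ℝ≥0∞) * q * (1 + nsq (err g c x M))
        ∂(Measure.pi fun _ : Fin (r + 1) => gK K (Fin l)) ∂(gK K (Fin r)) ≤ J q g c := by
  rw [J_eq hG, ← abs1 (gK K (Fin r)) (Measure.pi fun _ : Fin (r + 1) => gK K (Fin l))
    (fun M => dist2 (fun k : Fin r => M k.succ) (M 0))
    (fun x M => (Module.finrank ℝ K : ℝ≥0∞) * q * (1 + nsq (err g c x M)))
    (((nsq_meas.comp (err_meas g hg c)).const_add 1).const_mul _)]
  refine lintegral_mono fun x => lintegral_mono fun M => ?_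
  refine add_le_add ?_ le_rfl
  exact iInf_le _ (err g c x M)

theorem dist_term (hD2 : S_D2) (hD3 : S_D3) {r l : ℕ} (hrl : r ≤ l) :
    (Module.finrank ℝ K : ℝ≥0∞) * ((l - r : ℕ) : ℝ≥0∞) ≤
    ∫⁻ M, dist2 (fun k : Fin r => M k.succ) (M 0) ∂(Measure.pi fun _ : Fin (r + 1) => gK K (Fin l)) := by
  have hF : Measurable fun M : Fin (r + 1) → Fin l → K => dist2 (fun k : Fin r => M k.succ) (M 0) := by
    have : Measurable fun M : Fin (r + 1) → Fin l → K => ((M 0, fun k : Fin r => M k.succ) :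
      (Fin l → K) × (Fin r → Fin l → K)) := by fun_prop
    have h0 : Measurable (fun p : (Fin l → K) × (Fin r → Fin l → K) => dist2 p.2 p.1) := dist2_meas
    have h2 := h0.comp this
    simp only [Function.comp_def] at h2
    exact h2
  rw [lintegral_cons (gK K (Fin l)) r _ hF]
  refine abs4 _ _ _ ?_
  have hae := hD2 K r (Fin l) (by simpa using hrl)
  filter_upwards [hae] with S hS
  have := hD3 K r (Fin l) S hS (by simpa using hrl)
  rw [Fintype.card_fin] at this
  rw [← this]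
  simp only [Fin.cons_zero, Fin.cons_succ]
  exact le_rfl

theorem risk_term {r l : ℕ} (q : ℕ)
    (g : (Fin r → Fin l → K) × (Fin l → K) → (Fin r → K)) (hg : Measurable g) (c : ℝ) :
    ∫⁻ x, ∫⁻ M, (Module.finrank ℝ K : ℝ≥0∞) * q * (1 + nsq (err g c x M))
        ∂(Measure.pi fun _ : Fin (r + 1) => gK K (Fin l)) ∂(gK K (Fin r)) =
    (Module.finrank ℝ K : ℝ≥0∞) * q * (1 +
      ∑ j, ∫⁻ S, risk (fun p => g p j) j c S ∂(Measure.pi fun _ : Fin r => gK K (Fin l))) := by
  have he : ∀ j : Fin r, Measurable fun p : (Fin r → K) × (Fin (r + 1) → Fin l → K) =>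
      ‖err g c p.1 p.2 j‖ₑ ^ 2 :=
    fun j => (((measurable_pi_apply j).comp (err_meas g hg c)).enorm).pow_const 2
  have h := abs2 (gK K (Fin r)) (Measure.pi fun _ : Fin (r + 1) => gK K (Fin l))
    ((Module.finrank ℝ K : ℝ≥0∞) * q) (fun j x M => ‖err g c x M j‖ₑ ^ 2) he
  unfold nsq
  rw [h]
  congr 2
  refine Finset.sum_congr rfl fun j _ => ?_
  rw [abs3 (gK K (Fin r)) (gK K (Fin l)) (fun x M => ‖err g c x M j‖ₑ ^ 2) (he j)]
  unfold risk err
  simp only [Fin.cons_zero, Fin.cons_succ]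

theorem J_ge (hG : S_G) (hD2 : S_D2) (hD3 : S_D3) {r l : ℕ} (hrl : r ≤ l) (q : ℕ)
    (g : (Fin r → Fin l → K) × (Fin l → K) → (Fin r → K)) (hg : Measurable g) (c : ℝ) :
    (Module.finrank ℝ K : ℝ≥0∞) * ((l - r : ℕ) : ℝ≥0∞) + (Module.finrank ℝ K : ℝ≥0∞) * q * (1 +
      ∑ j, ∫⁻ S, risk (fun p => g p j) j c S ∂(Measure.pi fun _ : Fin r => gK K (Fin l))) ≤ J q g c := by
  rw [← risk_term q g hg c]
  exact le_trans (add_le_add (dist_term hD2 hD3 hrl) le_rfl) (J_ge1 hG q g hg c)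

end

end Pool.Agent.X19.SS
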