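import Pool.Agent.X19.SS.Stm

set_option autoImplicit false

open MeasureTheory ProbabilityTheory Filter Topology
open scoped ENNReal

namespace Pool.Agent.X19.SS

section
variable {K : Type} [RCLike K] [MeasurableSpace K] [BorelSpace K]

instance (ι : Type) [Fintype ι] : IsProbabilityMeasure (gK K ι) := by
  unfold gK; infer_instance

/-- splitting of the Gaussian on a sum type -/
theorem lintegral_sum (ι κ : Type) [Fintype ι] [Fintype κ] (F : (ι ⊕ κ → K) → ℝ≥0∞) (hF : Measurable F) :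
    ∫⁻ ξ, F ξ ∂(gK K (ι ⊕ κ)) = ∫⁻ x, ∫⁻ z, F (Sum.elim x z) ∂(gK K κ) ∂(gK K ι) := by
  have h := measurePreserving_sumPiEquivProdPi_symm (ι := ι) (ι' := κ) (X := fun _ => K)
    (fun _ => stdGaussian K)
  have h2 := h.lintegral_comp hF
  rw [show gK K (ι ⊕ κ) = Measure.pi (fun _ => stdGaussian K) from rfl, ← h2]
  rw [lintegral_prod]
  · rfl
  · exact (hF.comp (MeasurableEquiv.measurable _)).aemeasurable

theorem enorm_sq (x : K) : ‖x‖ₑ ^ 2 = ENNReal.ofReal (‖x‖ ^ 2) := by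
  rw [← ofReal_norm, ENNReal.ofReal_pow (norm_nonneg _)]

theorem par (A B : K) : 2 * ‖B‖ₑ ^ 2 ≤ ‖A‖ₑ ^ 2 + ‖A - 2 * B‖ₑ ^ 2 := by
  rw [enorm_sq, enorm_sq, enorm_sq, ← ENNReal.ofReal_add (by positivity) (by positivity)]
  rw [show (2 : ℝ≥0∞) = ENNReal.ofReal 2 by simp, ← ENNReal.ofReal_mul (by norm_num)]
  apply ENNReal.ofReal_le_ofReal
  have h := parallelogram_law_with_norm K (A - B) B
  rw [show A - B + B = A by ring, show A - B - B = A - 2 * B by ring] at h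
  nlinarith [norm_nonneg (A - B)]

theorem nsq_eq {ι : Type} [Fintype ι] (x : ι → K) : nsq x = ENNReal.ofReal (∑ i, ‖x i‖ ^ 2) := by
  unfold nsq
  rw [ENNReal.ofReal_sum_of_nonneg (fun i _ => by positivity)]
  exact Finset.sum_congr rfl fun i _ => enorm_sq _


theorem t_C (hB2 : S_B2) (hB3 : S_B3) (r l : ℕ) (S : Fin r → Fin l → K)
    (g : (Fin l → K) → K) (hg : Measurable g) (c : ℝ) (hc : 0 < c) (v : Fin r → K) (j : Fin r) (hv : v j = 1) :
    (Module.finrank ℝ K : ℝ≥0∞) / (nsq v / ENNReal.ofReal (c ^ 2) + nsq (∑ k, v k • S k)) ≤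
      ∫⁻ x, ∫⁻ z, ‖(c : K) * x j - g (∑ k, ((c : K) * x k) • S k + z)‖ₑ ^ 2 ∂(gK K (Fin l))
        ∂(gK K (Fin r)) := by
  classical
  set b : ℝ≥0∞ := (Module.finrank ℝ K : ℝ≥0∞) with hb
  -- the data map and the loss on the sum type
  set T : (Fin r ⊕ Fin l → K) → (Fin l → K) :=
    fun ξ => ∑ k, ((c : K) * ξ (Sum.inl k)) • S k + fun i => ξ (Sum.inr i) with hT
  have hTm : Measurable T := by
    rw [hT]
    refine Measurable.add (Finset.measurable_sum _ fun k _ => ?_) ?_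
    · exact ((measurable_pi_apply _).const_mul _).smul_const _
    · exact measurable_pi_lambda _ fun i => measurable_pi_apply _
  set F : (Fin r ⊕ Fin l → K) → ℝ≥0∞ := fun ξ => ‖(c : K) * ξ (Sum.inl j) - g (T ξ)‖ₑ ^ 2 with hF
  have hFm : Measurable F := by
    rw [hF]
    exact (((((measurable_pi_apply _).const_mul _).sub (hg.comp hTm)).enorm).pow_const 2)
  have h1 := lintegral_sum (K := K) (Fin r) (Fin l) F hFm
  have h2 : ∫⁻ x, ∫⁻ z, ‖(c : K) * x j - g (∑ k, ((c : K) * x k) • S k + z)‖ₑ ^ 2 ∂(gK K (Fin l))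
      ∂(gK K (Fin r)) = ∫⁻ ξ, F ξ ∂(gK K (Fin r ⊕ Fin l)) := by
    rw [h1]
    rfl
  rw [h2]
  -- the direction
  set w : Fin r ⊕ Fin l → K := Sum.elim v (-(c : K) • ∑ k, v k • S k) with hw
  set N : ℝ := ∑ i, ‖w i‖ ^ 2 with hN
  have hNpos : 0 < N := by
    have h3 : ‖w (Sum.inl j)‖ ^ 2 ≤ N :=
      Finset.single_le_sum (f := fun i => ‖w i‖ ^ 2) (fun i _ => by positivity) (Finset.mem_univ _)
    have h4 : w (Sum.inl j) = 1 := by rw [hw]; simpa using hv
    rw [h4] at h3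
    simp at h3
    linarith
  have hNw : nsq w = ENNReal.ofReal N := nsq_eq w
  have hNs : nsq w = nsq v + ENNReal.ofReal (c ^ 2) * nsq (∑ k, v k • S k) := by
    unfold nsq
    rw [Fintype.sum_sum_type, Finset.mul_sum]
    congr 1
    refine Finset.sum_congr rfl fun i _ => ?_
    rw [hw]
    simp only [Sum.elim_inr, Pi.smul_apply, smul_eq_mul]
    rw [enorm_mul, mul_pow, enorm_neg, enorm_sq (c : K)]
    congr 2
    rw [RCLike.norm_ofReal, sq_abs]
  -- the functional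
  set a : (Fin r ⊕ Fin l → K) → K := fun ξ => ∑ i, star (w i) * ξ i with ha
  -- the reflection
  set w' : EuclideanSpace K (Fin r ⊕ Fin l) := WithLp.toLp 2 w with hw'
  have hnw' : ‖w'‖ ^ 2 = N := by
    rw [EuclideanSpace.norm_sq_eq]
  set U : EuclideanSpace K (Fin r ⊕ Fin l) ≃ₗᵢ[K] EuclideanSpace K (Fin r ⊕ Fin l) :=
    Submodule.reflection (K ∙ w')ᗮ with hU
  have hUf : ∀ ξ : Fin r ⊕ Fin l → K, (WithLp.ofLp (U (WithLp.toLp 2 ξ)) : Fin r ⊕ Fin l → K) =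
      fun i => ξ i - 2 * (a ξ / (N : K)) * w i := by
    intro ξ
    rw [hU, Submodule.reflection_orthogonal_apply, Submodule.reflection_singleton_apply]
    have h5 : ((‖w'‖ : K) ^ 2) = (N : K) := by
      rw [← hnw']; push_cast; rfl
    rw [h5]
    have h6 : inner K w' (WithLp.toLp 2 ξ) = a ξ := by
      rw [ha, PiLp.inner_apply]
      refine Finset.sum_congr rfl fun i _ => ?_
      rw [RCLike.inner_apply]
      simp [hw', mul_comm]
    rw [h6]
    funext i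
    simp [hw', two_smul]
    ring
  have hρ := hB2 K (Fin r ⊕ Fin l) (Fin r ⊕ Fin l) U
  have hρ2 : ∫⁻ ξ, F (WithLp.ofLp (U (WithLp.toLp 2 ξ))) ∂(gK K (Fin r ⊕ Fin l)) =
      ∫⁻ ξ, F ξ ∂(gK K (Fin r ⊕ Fin l)) := hρ.lintegral_comp hFm
  -- pointwise
  have hpt : ∀ ξ : Fin r ⊕ Fin l → K, 2 * (ENNReal.ofReal (c ^ 2 / N ^ 2) * ‖a ξ‖ₑ ^ 2) ≤
      F ξ + F (WithLp.ofLp (U (WithLp.toLp 2 ξ))) := by
    intro ξ
    rw [hUf]
    have h7 : T (fun i => ξ i - 2 * (a ξ / (N : K)) * w i) = T ξ := by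
      funext i
      rw [hT]
      simp only [Pi.add_apply, Finset.sum_apply, Pi.smul_apply, smul_eq_mul, hw, Sum.elim_inl,
        Sum.elim_inr, Pi.neg_apply, neg_mul]
      rw [Finset.mul_sum, ← sub_eq_zero]
      have : ∀ k, ((c : K) * (ξ (Sum.inl k) - 2 * (a ξ / (N : K)) * v k)) * S k i =
          (c : K) * ξ (Sum.inl k) * S k i - 2 * (a ξ / (N : K)) * ((c : K) * (v k * S k i)) := by
        intro k; ring
      simp only [this]
      rw [Finset.sum_sub_distrib, ← Finset.mul_sum, ← Finset.mul_sum]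
      ring
    rw [hF]
    simp only [h7]
    have h8 : (c : K) * (ξ (Sum.inl j) - 2 * (a ξ / (N : K)) * w (Sum.inl j)) - g (T ξ) =
        ((c : K) * ξ (Sum.inl j) - g (T ξ)) - 2 * ((c : K) * (a ξ / (N : K))) := by
      have : w (Sum.inl j) = 1 := by rw [hw]; simpa using hv
      rw [this]; ring
    rw [h8]
    refine le_trans (le_of_eq ?_) (par ((c : K) * ξ (Sum.inl j) - g (T ξ)) ((c : K) * (a ξ / (N : K))))
    congr 1
    rw [enorm_sq, enorm_sq, ← ENNReal.ofReal_mul (by positivity)]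
    congr 1
    rw [norm_mul, norm_div, RCLike.norm_ofReal, RCLike.norm_ofReal, mul_pow, div_pow, sq_abs, sq_abs]
    ring
  have ham : Measurable a := by
    rw [ha]
    exact Finset.measurable_sum _ fun i _ => (measurable_pi_apply _).const_mul _
  have h9 : 2 * (ENNReal.ofReal (c ^ 2 / N ^ 2) * (b * nsq w)) ≤
      2 * ∫⁻ ξ, F ξ ∂(gK K (Fin r ⊕ Fin l)) := by
    calc 2 * (ENNReal.ofReal (c ^ 2 / N ^ 2) * (b * nsq w))
        = ∫⁻ ξ, 2 * (ENNReal.ofReal (c ^ 2 / N ^ 2) * ‖a ξ‖ₑ ^ 2) ∂(gK K (Fin r ⊕ Fin l)) := by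
          rw [lintegral_const_mul _ (by fun_prop), lintegral_const_mul _ (by fun_prop), hB3]
      _ ≤ ∫⁻ ξ, (F ξ + F (WithLp.ofLp (U (WithLp.toLp 2 ξ)))) ∂(gK K (Fin r ⊕ Fin l)) :=
          lintegral_mono hpt
      _ = 2 * ∫⁻ ξ, F ξ ∂(gK K (Fin r ⊕ Fin l)) := by
          rw [lintegral_add_left hFm, hρ2, two_mul]
  have h10 : ENNReal.ofReal (c ^ 2 / N ^ 2) * (b * nsq w) ≤ ∫⁻ ξ, F ξ ∂(gK K (Fin r ⊕ Fin l)) := by
    rwa [ENNReal.mul_le_mul_iff_right (by norm_num) (by norm_num)] at h9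
  refine le_trans (le_of_eq ?_) h10
  have hc2 : ENNReal.ofReal (c ^ 2) ≠ 0 := by
    rw [Ne, ENNReal.ofReal_eq_zero, not_le]; positivity
  have h11 : nsq v / ENNReal.ofReal (c ^ 2) + nsq (∑ k, v k • S k) = nsq w / ENNReal.ofReal (c ^ 2) := by
    rw [hNs, ENNReal.add_div, mul_comm, ENNReal.mul_div_cancel_right hc2 ENNReal.ofReal_ne_top]
  rw [h11, hNw, ← ENNReal.ofReal_div_of_pos (by positivity)]
  rw [hb, ← ENNReal.ofReal_natCast, ← ENNReal.ofReal_div_of_pos (by positivity),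
    ← ENNReal.ofReal_mul (by positivity), ← ENNReal.ofReal_mul (by positivity)]
  congr 1
  field_simp

end

end Pool.Agent.X19.SS
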