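import Mathlib

set_option autoImplicit false

open MeasureTheory Filter Topology
open scoped ENNReal

namespace Pool.Agent.X19.SS

theorem insertNth_meas {X : Type} [MeasurableSpace X] {n : ℕ} (j : Fin (n + 1)) :
    Measurable fun q : (Fin n → X) × X => (j.insertNth q.2 q.1 : Fin (n + 1) → X) := by
  refine measurable_pi_lambda _ fun i => ?_
  refine Fin.succAboveCases j ?_ (fun k => ?_) i
  · simp only [Fin.insertNth_apply_same]
    exact measurable_snd
  · simp only [Fin.insertNth_apply_succAbove]
    exact (measurable_pi_apply k).comp measurable_fst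

theorem lintegral_insertNth {X : Type} [MeasurableSpace X] (μ : Measure X) [IsProbabilityMeasure μ] (n : ℕ)
    (j : Fin (n + 1)) (F : (Fin (n + 1) → X) → ℝ≥0∞) (hF : Measurable F) :
    ∫⁻ M, F M ∂(Measure.pi fun _ => μ) = ∫⁻ S, ∫⁻ s, F (j.insertNth s S) ∂μ ∂(Measure.pi fun _ : Fin n => μ) := by
  have h := (measurePreserving_piFinSuccAbove (fun _ : Fin (n + 1) => μ) j).symm
  have h2 := h.lintegral_comp hF
  rw [← h2, lintegral_prod_symm]
  · rfl
  · exact (hF.comp (MeasurableEquiv.measurable _)).aemeasurable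

theorem cons_meas {X : Type} [MeasurableSpace X] {n : ℕ} :
    Measurable fun q : (Fin n → X) × X => (Fin.cons q.2 q.1 : Fin (n + 1) → X) := by
  refine measurable_pi_lambda _ fun i => ?_
  refine Fin.cases ?_ (fun k => ?_) i
  · simp only [Fin.cons_zero]
    exact measurable_snd
  · simp only [Fin.cons_succ]
    exact (measurable_pi_apply k).comp measurable_fst

theorem lintegral_cons {X : Type} [MeasurableSpace X] (μ : Measure X) [IsProbabilityMeasure μ] (n : ℕ)
    (F : (Fin (n + 1) → X) → ℝ≥0∞) (hF : Measurable F) :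
    ∫⁻ M, F M ∂(Measure.pi fun _ => μ) = ∫⁻ S, ∫⁻ s, F (Fin.cons s S) ∂μ ∂(Measure.pi fun _ : Fin n => μ) := by
  rw [lintegral_insertNth μ n 0 F hF]
  refine lintegral_congr fun S => lintegral_congr fun s => ?_
  rw [Fin.insertNth_zero']

end Pool.Agent.X19.SS
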