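import Pool.Agent.X19.SS.R4
import Pool.Agent.X19.SS.Abs

set_option autoImplicit false

open MeasureTheory ProbabilityTheory Filter Topology
open scoped ENNReal

namespace Pool.Agent.X19.SS

section
variable {K : Type} [RCLike K] [MeasurableSpace K] [BorelSpace K]

theorem t_D4 (hB2 : S_B2) (hB3 : S_B3) (hD1 : S_D1) (hD2 : S_D2) {m l : ℕ}
    (g : (Fin (m + 1) → Fin l → K) × (Fin l → K) → K) (hg : Measurable g) (j : Fin (m + 1))
    (hml : 2 + Module.finrank ℝ K * m < Module.finrank ℝ K * l) (hml' : m ≤ l) :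
    (Module.finrank ℝ K : ℝ≥0∞) * ENNReal.ofReal (1 / ((Module.finrank ℝ K : ℝ) * ((l : ℝ) - m) - 2)) ≤
      liminf (fun n : ℕ => ∫⁻ S, risk g j ((n : ℝ) + 1) S ∂(Measure.pi fun _ : Fin (m + 1) => gK K (Fin l)))
        atTop := by
  have hsplit : ∀ n : ℕ, ∫⁻ S, risk g j ((n : ℝ) + 1) S ∂(Measure.pi fun _ : Fin (m + 1) => gK K (Fin l)) =
      ∫⁻ S, ∫⁻ s, risk g j ((n : ℝ) + 1) (j.insertNth s S) ∂(gK K (Fin l))
        ∂(Measure.pi fun _ : Fin m => gK K (Fin l)) := by
    intro n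
    exact lintegral_insertNth (gK K (Fin l)) m j _ (risk_meas g hg j ((n : ℝ) + 1))
  have hmeas2 : ∀ n : ℕ, Measurable fun q : (Fin m → Fin l → K) × (Fin l → K) =>
      risk g j ((n : ℝ) + 1) (j.insertNth q.2 q.1) :=
    fun n => (risk_meas g hg j ((n : ℝ) + 1)).comp (insertNth_meas j)
  simp only [hsplit]
  have hm3 : ∀ n : ℕ, Measurable fun S : Fin m → Fin l → K =>
      ∫⁻ s, risk g j ((n : ℝ) + 1) (j.insertNth s S) ∂(gK K (Fin l)) := by
    intro n
    have h := (hmeas2 n).lintegral_prod_right' (ν := gK K (Fin l))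
    exact h
  refine le_trans ?_ (lintegral_liminf_le hm3)
  have hae := hD2 K m (Fin l) (by simpa using hml')
  refine abs4 _ _ _ ?_
  filter_upwards [hae] with S hS
  have hm4 : ∀ n : ℕ, Measurable fun s : Fin l → K => risk g j ((n : ℝ) + 1) (j.insertNth s S) := by
    intro n
    have h := (hmeas2 n).comp (measurable_prodMk_left (x := S))
    simp only [Function.comp_def] at h
    exact h
  refine le_trans ?_ (lintegral_liminf_le hm4)
  have h3 := hD1 K m l S hS hml
  have h4 : (Module.finrank ℝ K : ℝ≥0∞) * ENNReal.ofReal (1 / ((Module.finrank ℝ K : ℝ) * ((l : ℝ) - m) - 2)) ≤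
      (Module.finrank ℝ K : ℝ≥0∞) * ∫⁻ s, (dist2 S s)⁻¹ ∂(gK K (Fin l)) := mul_le_mul_right h3 _
  refine le_trans h4 ?_
  rw [← lintegral_const_mul' _ _ (ENNReal.natCast_ne_top _)]
  exact lintegral_mono fun s => liminf_risk hB2 hB3 g hg j s S

end

end Pool.Agent.X19.SS
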