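import Pool.Agent.X19.SS.M

set_option autoImplicit false

open MeasureTheory ProbabilityTheory Filter Topology
open scoped ENNReal Matrix

namespace Pool.Agent.X19.SS

section
variable {K : Type} [RCLike K] [MeasurableSpace K] [BorelSpace K]

variable (K) in
/-- the limit risk of one coordinate -/
noncomputable def tau (l r : ℕ) : ℝ≥0∞ := (Module.finrank ℝ K : ℝ≥0∞) *
  ENNReal.ofReal (1 / ((Module.finrank ℝ K : ℝ) * ((l : ℝ) - ((r : ℝ) - 1)) - 2))

/-- lower bound for every embedding matrix -/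
theorem lower (hB2 : S_B2) (hB3 : S_B3) (hD1 : S_D1) (hD2 : S_D2) (hD3 : S_D3) (hG : S_G) (hF1 : S_F1)
    {l q r : ℕ} (hrl : r < l) (hcond : Module.finrank ℝ K * r + 2 < Module.finrank ℝ K * (l + 1))
    (Om : Matrix (Fin (l + q)) (Fin l) K)
    (u : (Fin r → Fin l → K) × (Fin l → K) → (Fin r → K)) (hu : Measurable u) :
    (Module.finrank ℝ K : ℝ≥0∞) * ((l - r : ℕ) : ℝ≥0∞) + (Module.finrank ℝ K : ℝ≥0∞) * q * (1 + r * tau K l r) ≤
    liminf (fun n : ℕ => ∫⁻ x, ∫⁻ M, loss Om u ((n : ℝ) + 1) x M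
      ∂(Measure.pi fun _ : Fin (r + 1) => gK K (Fin (l + q))) ∂(gK K (Fin r))) atTop := by
  obtain ⟨U, R, hR⟩ := hF1 K l q Om
  have hg := (transform hB2 Om U R hR u hu 0).1
  simp only [fun c : ℝ => (transform hB2 Om U R hR u hu c).2]
  refine le_trans ?_ (liminf_le_liminf (Eventually.of_forall fun n : ℕ =>
    J_ge hG hD2 hD3 hrl.le q (fun s => u (fun k => R *ᵥ s.1 k, R *ᵥ s.2)) hg ((n : ℝ) + 1)))
  refine liminf_comb _ _ _ (ENNReal.mul_ne_top (ENNReal.natCast_ne_top _) (ENNReal.natCast_ne_top _))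
    (fun (n : ℕ) j => ∫⁻ S, risk (fun p => (fun s : (Fin r → Fin l → K) × (Fin l → K) =>
      u (fun k => R *ᵥ s.1 k, R *ᵥ s.2)) p j) j ((n : ℝ) + 1) S
      ∂(Measure.pi fun _ : Fin r => gK K (Fin l))) ?_
  intro j
  cases r with
  | zero => exact j.elim0
  | succ m =>
    have h1 := t_D4 (m := m) (l := l) hB2 hB3 hD1 hD2
      (fun p => (fun s : (Fin (m + 1) → Fin l → K) × (Fin l → K) => u (fun k => R *ᵥ s.1 k, R *ᵥ s.2)) p j)
      ((measurable_pi_apply j).comp hg) j (by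
        have : Module.finrank ℝ K * (m + 1) = Module.finrank ℝ K * m + Module.finrank ℝ K := by ring
        have : Module.finrank ℝ K * (l + 1) = Module.finrank ℝ K * l + Module.finrank ℝ K := by ring
        omega) (by omega)
    refine le_trans (le_of_eq ?_) h1
    unfold tau
    congr 4
    push_cast
    ring

/-- the main inequality -/
theorem main_ineq (hB2 : S_B2) (hB3 : S_B3) (hD1 : S_D1) (hD2 : S_D2) (hD3 : S_D3) (hG : S_G) (hF1 : S_F1)
    (hF3a : S_F3a) (hF3b : S_F3b) (hF3c : S_F3c) (hF3d : S_F3d) (hF3e : S_F3e)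
    {l q r d p : ℕ} (hr : r ≤ d) (hp : 1 ≤ p) (hrl : r < l)
    (hcond : Module.finrank ℝ K * r + 2 < Module.finrank ℝ K * (l + 1))
    {Θ : Type} [MeasurableSpace Θ] (μ : Measure Θ) [IsProbabilityMeasure μ]
    (Om : Θ → Matrix (Fin (l + q)) (Fin l) K)
    (hOm : Measurable fun θ => fun (i : Fin (l + q)) (j : Fin l) => Om θ i j)
    (ALG : Matrix (Fin (l + q)) (Fin l) K → Matrix (Fin l) (Fin d) K → Matrix (Fin l) (Fin p) K →
      Matrix (Fin d) (Fin p) K)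
    (hALG : Measurable fun s : (Fin (l + q) → Fin l → K) × (Fin l → Fin d → K) × (Fin l → Fin p → K) =>
      fun (i : Fin d) (k : Fin p) => ALG (Matrix.of s.1) (Matrix.of s.2.1) (Matrix.of s.2.2) i k)
    (C : ℝ≥0∞) (hC : C ≠ ∞)
    (hsup : ∀ (A : Matrix (Fin (l + q)) (Fin d) K) (B : Matrix (Fin (l + q)) (Fin p) K), A.rank = r →
      (∀ X : Matrix (Fin d) (Fin p) K, A * X ≠ B) →
      ∫⁻ θ, frob2 (B - A * ALG (Om θ) ((Om θ)ᴴ * A) ((Om θ)ᴴ * B)) ∂μ ≤
        C * ⨅ X : Matrix (Fin d) (Fin p) K, frob2 (B - A * X)) :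
    (Module.finrank ℝ K : ℝ≥0∞) * ((l - r : ℕ) : ℝ≥0∞) + (Module.finrank ℝ K : ℝ≥0∞) * q * (1 + r * tau K l r) ≤
      C * ((Module.finrank ℝ K : ℝ≥0∞) * ((l + q - r : ℕ) : ℝ≥0∞)) := by
  have hup := upper hD2 hD3 hF3a hF3b hF3c hF3d hF3e hr hp (by omega) μ Om hOm ALG hALG C hC hsup
  have hmeas : ∀ n : ℕ, Measurable fun θ => ∫⁻ x, ∫⁻ M, loss (Om θ) (est hr hp ALG (Om θ)) ((n : ℝ) + 1) x M
      ∂(Measure.pi fun _ : Fin (r + 1) => gK K (Fin (l + q))) ∂(gK K (Fin r)) := by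
    intro n
    have hm := loss_meas (r := r) Om hOm (fun θ => est hr hp ALG (Om θ))
      (est_meas hr hp ALG hALG Om hOm) ((n : ℝ) + 1)
    have h1 := hm.lintegral_prod_right' (ν := Measure.pi fun _ : Fin (r + 1) => gK K (Fin (l + q)))
    have h2 := h1.lintegral_prod_right' (ν := gK K (Fin r))
    exact h2
  have hlow : ∀ θ, (Module.finrank ℝ K : ℝ≥0∞) * ((l - r : ℕ) : ℝ≥0∞) +
      (Module.finrank ℝ K : ℝ≥0∞) * q * (1 + r * tau K l r) ≤
      liminf (fun n : ℕ => ∫⁻ x, ∫⁻ M, loss (Om θ) (est hr hp ALG (Om θ)) ((n : ℝ) + 1) x M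
        ∂(Measure.pi fun _ : Fin (r + 1) => gK K (Fin (l + q))) ∂(gK K (Fin r))) atTop := by
    intro θ
    have hu : Measurable (est hr hp ALG (Om θ) : (Fin r → Fin l → K) × (Fin l → K) → (Fin r → K)) := by
      have h1 := est_meas (r := r) hr hp ALG hALG Om hOm
      exact h1.comp measurable_prodMk_left
    exact lower hB2 hB3 hD1 hD2 hD3 hG hF1 hrl hcond (Om θ) _ hu
  refine le_trans (abs4 μ _ _ (Eventually.of_forall hlow)) ?_
  refine le_trans (lintegral_liminf_le hmeas) ?_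
  refine le_trans (liminf_le_liminf (Eventually.of_forall fun n : ℕ => hup ((n : ℝ) + 1))) ?_
  rw [liminf_const]

end

/-- arithmetic at the end -/
theorem arith (b l q r α : ℕ) (hb : b + α = 2) (hb1 : 1 ≤ b) (hrl : r + α < l) (C : ℝ≥0∞)
    (h : (b : ℝ≥0∞) * ((l - r : ℕ) : ℝ≥0∞) + (b : ℝ≥0∞) * q * (1 + r * ((b : ℝ≥0∞) *
      ENNReal.ofReal (1 / ((b : ℝ) * ((l : ℝ) - ((r : ℝ) - 1)) - 2)))) ≤
      C * ((b : ℝ≥0∞) * ((l + q - r : ℕ) : ℝ≥0∞))) :
    ENNReal.ofReal (1 + (((l + q : ℕ) : ℝ) - l) / (((l + q : ℕ) : ℝ) - r) * (r / ((l : ℝ) - r - α))) ≤ C := by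
  by_cases hC : C = ∞
  · rw [hC]; exact le_top
  have hlr : (r : ℝ) + α < l := by exact_mod_cast hrl
  have hbr : (b : ℝ) + α = 2 := by exact_mod_cast hb
  have hα0 : (0 : ℝ) ≤ α := Nat.cast_nonneg _
  have hb1r : (1 : ℝ) ≤ b := by exact_mod_cast hb1
  have hq0 : (0 : ℝ) ≤ q := Nat.cast_nonneg _
  have hr0 : (0 : ℝ) ≤ r := Nat.cast_nonneg _
  have hpos : 0 < (l : ℝ) - r - α := by linarith
  have hτ : (b : ℝ≥0∞) * ENNReal.ofReal (1 / ((b : ℝ) * ((l : ℝ) - ((r : ℝ) - 1)) - 2)) =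
      ENNReal.ofReal (1 / ((l : ℝ) - r - α)) := by
    rw [← ENNReal.ofReal_natCast, ← ENNReal.ofReal_mul (by positivity)]
    congr 1
    have hcases : b = 1 ∨ b = 2 := by omega
    rcases hcases with rfl | rfl
    · have : (α : ℝ) = 1 := by push_cast at hbr; linarith
      rw [this]
      push_cast
      have h1 : (l : ℝ) - r - 1 ≠ 0 := by rw [this] at hpos; exact hpos.ne'
      have h2 : (1 : ℝ) * ((l : ℝ) - ((r : ℝ) - 1)) - 2 = (l : ℝ) - r - 1 := by ring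
      rw [h2]; ring
    · have : (α : ℝ) = 0 := by push_cast at hbr; linarith
      rw [this] at hpos ⊢
      push_cast
      have h2 : (2 : ℝ) * ((l : ℝ) - ((r : ℝ) - 1)) - 2 = 2 * ((l : ℝ) - r - 0) := by ring
      rw [h2]
      field_simp
  rw [hτ] at h
  have hCr : C = ENNReal.ofReal C.toReal := (ENNReal.ofReal_toReal hC).symm
  have hc0 : 0 ≤ C.toReal := ENNReal.toReal_nonneg
  have hle1 : r ≤ l := by omega
  have hle2 : r ≤ l + q := by omega
  have hinv : 0 ≤ 1 / ((l : ℝ) - r - α) := by positivity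
  rw [hCr, ← ENNReal.ofReal_natCast b, ← ENNReal.ofReal_natCast (l - r), ← ENNReal.ofReal_natCast (l + q - r),
    ← ENNReal.ofReal_natCast q, ← ENNReal.ofReal_natCast r, ← ENNReal.ofReal_one,
    ← ENNReal.ofReal_mul (by positivity), ← ENNReal.ofReal_mul (by positivity),
    ← ENNReal.ofReal_mul (by positivity), ← ENNReal.ofReal_add (by positivity) (by positivity),
    ← ENNReal.ofReal_mul (by positivity), ← ENNReal.ofReal_mul (by positivity),
    ← ENNReal.ofReal_mul (by positivity), ← ENNReal.ofReal_add (by positivity) (by positivity),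
    ENNReal.ofReal_le_ofReal_iff (by positivity)] at h
  rw [hCr]
  apply ENNReal.ofReal_le_ofReal
  push_cast [Nat.cast_sub hle1, Nat.cast_sub hle2] at h
  push_cast
  have hD : 0 < (l : ℝ) + q - r := by linarith
  have hb0 : (0 : ℝ) < b := by linarith
  have h5 : ((l : ℝ) - r) + q * (1 + r * (1 / ((l : ℝ) - r - α))) ≤ C.toReal * ((l : ℝ) + q - r) := by
    have h6 : (b : ℝ) * (((l : ℝ) - r) + q * (1 + r * (1 / ((l : ℝ) - r - α)))) ≤
        b * (C.toReal * ((l : ℝ) + q - r)) := by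
      calc _ = (b : ℝ) * ((l : ℝ) - r) + b * q * (1 + r * (1 / ((l : ℝ) - r - α))) := by ring
        _ ≤ _ := h
        _ = _ := by ring
    exact le_of_mul_le_mul_left h6 hb0
  have h7 : 1 + ((l : ℝ) + q - l) / ((l : ℝ) + q - r) * (r / ((l : ℝ) - r - α)) =
      (((l : ℝ) - r) + q * (1 + r * (1 / ((l : ℝ) - r - α)))) / ((l : ℝ) + q - r) := by
    field_simp
    ring
  rw [h7, div_le_iff₀ hD]
  exact h5

end Pool.Agent.X19.SS
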