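import Pool.Agent.X19.SS.Stm

/-!
# Parts for MP_467638_an: statements, second part (matrices)
-/

set_option autoImplicit false

open MeasureTheory ProbabilityTheory Filter Topology
open scoped ENNReal Matrix

namespace Pool.Agent.X19.SS

/-- squared Frobenius norm -/
noncomputable def frob2 {K : Type} [RCLike K] {m k : ℕ} (M : Matrix (Fin m) (Fin k) K) : ℝ≥0∞ :=
  ∑ i, ∑ j, ‖M i j‖ₑ ^ 2

/-- the matrix with first `r` columns `G` and zeros elsewhere -/
def matA {K : Type} [RCLike K] {r n : ℕ} (d : ℕ) (G : Fin r → Fin n → K) : Matrix (Fin n) (Fin d) K :=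
  Matrix.of fun i j => if h : j.val < r then G ⟨j.val, h⟩ i else 0

/-- the matrix with first column `y` and zeros elsewhere -/
def matB {K : Type} [RCLike K] {n : ℕ} (p : ℕ) (y : Fin n → K) : Matrix (Fin n) (Fin p) K :=
  Matrix.of fun i k => if k.val = 0 then y i else 0

/-- (F1) rotation which puts the range of `Om` into the first block (Gram-Schmidt:
`gramSchmidtOrthonormalBasis` of the columns of `Om` padded with zeros, `gramSchmidtOrthonormalBasis_inv_triangular`,
reindexed by `finSumFinEquiv`). No rank condition is needed. -/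
def S_F1 : Prop := ∀ (K : Type) [RCLike K] (l q : ℕ) (Om : Matrix (Fin (l + q)) (Fin l) K),
  ∃ (U : EuclideanSpace K (Fin (l + q)) ≃ₗᵢ[K] EuclideanSpace K (Fin l ⊕ Fin q)) (R : Matrix (Fin l) (Fin l) K),
    ∀ y : Fin (l + q) → K, Omᴴ *ᵥ y = R *ᵥ (fun i => (WithLp.ofLp (U (WithLp.toLp 2 y)) : _ → K) (Sum.inl i))

/-- (F3a) rank -/
def S_F3a : Prop := ∀ (K : Type) [RCLike K] (r n d : ℕ) (G : Fin r → Fin n → K), r ≤ d →
  LinearIndependent K G → (matA d G).rank = r

/-- (F3b) the residual is at most the squared distance -/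
def S_F3b : Prop := ∀ (K : Type) [RCLike K] (r n d p : ℕ) (G : Fin r → Fin n → K) (y : Fin n → K), r ≤ d →
  1 ≤ p → ⨅ X : Matrix (Fin d) (Fin p) K, frob2 (matB p y - matA d G * X) ≤ dist2 G y

/-- (F3c) the loss is at least the loss in the first column -/
def S_F3c : Prop := ∀ (K : Type) [RCLike K] (r n d p : ℕ) (G : Fin r → Fin n → K) (y : Fin n → K) (hr : r ≤ d)
  (hp : 1 ≤ p) (X : Matrix (Fin d) (Fin p) K),
  nsq (y - ∑ j : Fin r, X (Fin.castLE hr j) ⟨0, hp⟩ • G j) ≤ frob2 (matB p y - matA d G * X)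

/-- (F3d) sketches of the padded matrices -/
def S_F3d : Prop := ∀ (K : Type) [RCLike K] (r n l d p : ℕ) (G : Fin r → Fin n → K) (y : Fin n → K)
  (Om : Matrix (Fin n) (Fin l) K), Omᴴ * matA d G = matA d (fun j => Omᴴ *ᵥ G j) ∧
    Omᴴ * matB p y = matB p (Omᴴ *ᵥ y)

/-- (F3e) the system is inconsistent -/
def S_F3e : Prop := ∀ (K : Type) [RCLike K] (r n d p : ℕ) (M : Fin (r + 1) → Fin n → K), 1 ≤ p →
  LinearIndependent K M → ∀ (x : Fin r → K) (X : Matrix (Fin d) (Fin p) K),
  matA d (fun j : Fin r => M j.succ) * X ≠ matB p (∑ k : Fin r, x k • M k.succ + M 0)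

/-- (P) for a matrix `P` with the Penrose equations (1) and (3), `B - A P B` is the least squares residual. -/
def S_P : Prop := ∀ (K : Type) [RCLike K] (n d p : ℕ) (A : Matrix (Fin n) (Fin d) K) (B : Matrix (Fin n) (Fin p) K)
  (P : Matrix (Fin d) (Fin n) K), A * P * A = A → (A * P)ᴴ = A * P →
  (⨅ X : Matrix (Fin d) (Fin p) K, frob2 (B - A * X)) = frob2 (B - A * P * B)

end Pool.Agent.X19.SS
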