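import Pool.Agent.X19.SS.T
import Pool.Agent.X19.SS.D4
import Pool.Agent.X19.SS.Stm2

set_option autoImplicit false

open MeasureTheory ProbabilityTheory Filter Topology
open scoped ENNReal Matrix

namespace Pool.Agent.X19.SS

section
variable {K : Type} [RCLike K] [MeasurableSpace K] [BorelSpace K]

theorem dist2_shift {r n : ℕ} (G : Fin r → Fin n → K) (x : Fin r → K) (z : Fin n → K) :
    dist2 G (∑ k, x k • G k + z) ≤ dist2 G z := by
  unfold dist2
  refine le_iInf fun v => ?_
  refine le_trans (iInf_le _ (v - x)) (le_of_eq ?_)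
  congr 1
  simp only [Pi.sub_apply, sub_smul, Finset.sum_sub_distrib]
  abel

/-- the estimator given by an algorithm -/
noncomputable def est {n l r d p : ℕ} (hr : r ≤ d) (hp : 1 ≤ p)
    (ALG : Matrix (Fin n) (Fin l) K → Matrix (Fin l) (Fin d) K → Matrix (Fin l) (Fin p) K →
      Matrix (Fin d) (Fin p) K) (Om : Matrix (Fin n) (Fin l) K) (s : (Fin r → Fin l → K) × (Fin l → K)) :
    Fin r → K := fun j => ALG Om (matA d s.1) (matB p s.2) (Fin.castLE hr j) ⟨0, hp⟩

theorem est_meas {n l r d p : ℕ} (hr : r ≤ d) (hp : 1 ≤ p)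
    (ALG : Matrix (Fin n) (Fin l) K → Matrix (Fin l) (Fin d) K → Matrix (Fin l) (Fin p) K →
      Matrix (Fin d) (Fin p) K)
    (hALG : Measurable fun s : (Fin n → Fin l → K) × (Fin l → Fin d → K) × (Fin l → Fin p → K) =>
      fun (i : Fin d) (k : Fin p) => ALG (Matrix.of s.1) (Matrix.of s.2.1) (Matrix.of s.2.2) i k)
    {Θ : Type} [MeasurableSpace Θ] (Om : Θ → Matrix (Fin n) (Fin l) K)
    (hOm : Measurable fun θ => fun (i : Fin n) (j : Fin l) => Om θ i j) :
    Measurable fun s : Θ × ((Fin r → Fin l → K) × (Fin l → K)) => est hr hp ALG (Om s.1) s.2 := by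
  unfold est
  refine measurable_pi_lambda _ fun j => ?_
  have h1 : Measurable fun s : Θ × ((Fin r → Fin l → K) × (Fin l → K)) =>
      ((fun (i : Fin n) (j : Fin l) => Om s.1 i j, (fun i j => matA d s.2.1 i j, fun i k => matB p s.2.2 i k)) :
        (Fin n → Fin l → K) × (Fin l → Fin d → K) × (Fin l → Fin p → K)) := by
    refine Measurable.prodMk (hOm.comp measurable_fst) (Measurable.prodMk ?_ ?_)
    · refine measurable_pi_lambda _ fun i => measurable_pi_lambda _ fun j => ?_
      unfold matA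
      simp only [Matrix.of_apply]
      split_ifs with h
      · fun_prop
      · fun_prop
    · refine measurable_pi_lambda _ fun i => measurable_pi_lambda _ fun j => ?_
      unfold matB
      simp only [Matrix.of_apply]
      split_ifs with h
      · fun_prop
      · fun_prop
  have h2 := hALG.comp h1
  have h3 := (measurable_pi_apply (⟨0, hp⟩ : Fin p)).comp ((measurable_pi_apply (Fin.castLE hr j)).comp h2)
  exact h3

theorem loss_meas {n l r : ℕ} {Θ : Type} [MeasurableSpace Θ] (Om : Θ → Matrix (Fin n) (Fin l) K)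
    (hOm : Measurable fun θ => fun (i : Fin n) (j : Fin l) => Om θ i j)
    (u : Θ → (Fin r → Fin l → K) × (Fin l → K) → (Fin r → K))
    (hu : Measurable fun s : Θ × ((Fin r → Fin l → K) × (Fin l → K)) => u s.1 s.2) (c : ℝ) :
    Measurable fun s : (Θ × (Fin r → K)) × (Fin (r + 1) → Fin n → K) => loss (Om s.1.1) (u s.1.1) c s.1.2 s.2 := by
  unfold loss
  have hO : ∀ i j, Measurable fun s : (Θ × (Fin r → K)) × (Fin (r + 1) → Fin n → K) => star (Om s.1.1 i j) := by
    intro i j
    have h1 : Measurable fun θ => Om θ i j :=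
      (measurable_pi_apply j).comp ((measurable_pi_apply i).comp hOm)
    exact RCLike.continuous_conj.measurable.comp (h1.comp (measurable_fst.comp measurable_fst))
  have h1 : Measurable fun s : (Θ × (Fin r → K)) × (Fin (r + 1) → Fin n → K) =>
      ((s.1.1, (fun k => (Om s.1.1)ᴴ *ᵥ s.2 k.succ,
        (Om s.1.1)ᴴ *ᵥ (∑ k, ((c : K) * s.1.2 k) • s.2 k.succ + s.2 0))) :
        Θ × ((Fin r → Fin l → K) × (Fin l → K))) := by
    refine Measurable.prodMk (by fun_prop) (Measurable.prodMk ?_ ?_)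
    · refine measurable_pi_lambda _ fun k => measurable_pi_lambda _ fun i => ?_
      simp only [Matrix.mulVec, dotProduct, Matrix.conjTranspose_apply]
      exact Finset.measurable_sum _ fun j _ => (hO j i).mul (by fun_prop)
    · refine measurable_pi_lambda _ fun i => ?_
      simp only [Matrix.mulVec, dotProduct, Matrix.conjTranspose_apply, Pi.add_apply, Finset.sum_apply,
        Pi.smul_apply, smul_eq_mul]
      exact Finset.measurable_sum _ fun j _ => (hO j i).mul (by fun_prop)
  have h2 := hu.comp h1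
  refine nsq_meas.comp (Measurable.add (by fun_prop) (Finset.measurable_sum _ fun k _ => ?_))
  refine measurable_pi_lambda _ fun i => ?_
  simp only [Pi.smul_apply, smul_eq_mul]
  refine Measurable.mul (Measurable.sub (by fun_prop) ?_) (by fun_prop)
  exact (measurable_pi_apply k).comp h2

/-- the loss is bounded by the Frobenius error of the algorithm -/
theorem loss_le (hF3c : S_F3c) (hF3d : S_F3d) {n l r d p : ℕ} (hr : r ≤ d) (hp : 1 ≤ p)
    (ALG : Matrix (Fin n) (Fin l) K → Matrix (Fin l) (Fin d) K → Matrix (Fin l) (Fin p) K →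
      Matrix (Fin d) (Fin p) K) (Om : Matrix (Fin n) (Fin l) K) (c : ℝ) (x : Fin r → K)
    (M : Fin (r + 1) → Fin n → K) :
    loss Om (est hr hp ALG Om) c x M ≤
      frob2 (matB p (∑ k, ((c : K) * x k) • M k.succ + M 0) - matA d (fun j : Fin r => M j.succ) *
        ALG Om (Omᴴ * matA d (fun j : Fin r => M j.succ))
          (Omᴴ * matB p (∑ k, ((c : K) * x k) • M k.succ + M 0))) := by
  have h1 := hF3d K r n l d p (fun j : Fin r => M j.succ) (∑ k, ((c : K) * x k) • M k.succ + M 0) Om
  rw [h1.1, h1.2]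
  refine le_trans (le_of_eq ?_) (hF3c K r n d p (fun j : Fin r => M j.succ)
    (∑ k, ((c : K) * x k) • M k.succ + M 0) hr hp _)
  unfold loss est
  congr 1
  simp only [sub_smul, Finset.sum_sub_distrib]
  abel

/-- upper bound for the average over the prior -/
theorem upper (hD2 : S_D2) (hD3 : S_D3) (hF3a : S_F3a) (hF3b : S_F3b) (hF3c : S_F3c) (hF3d : S_F3d)
    (hF3e : S_F3e) {n l r d p : ℕ} (hr : r ≤ d) (hp : 1 ≤ p) (hrn : r < n)
    {Θ : Type} [MeasurableSpace Θ] (μ : Measure Θ) [IsProbabilityMeasure μ] (Om : Θ → Matrix (Fin n) (Fin l) K)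
    (hOm : Measurable fun θ => fun (i : Fin n) (j : Fin l) => Om θ i j)
    (ALG : Matrix (Fin n) (Fin l) K → Matrix (Fin l) (Fin d) K → Matrix (Fin l) (Fin p) K →
      Matrix (Fin d) (Fin p) K)
    (hALG : Measurable fun s : (Fin n → Fin l → K) × (Fin l → Fin d → K) × (Fin l → Fin p → K) =>
      fun (i : Fin d) (k : Fin p) => ALG (Matrix.of s.1) (Matrix.of s.2.1) (Matrix.of s.2.2) i k)
    (C : ℝ≥0∞) (hC : C ≠ ∞)
    (hsup : ∀ (A : Matrix (Fin n) (Fin d) K) (B : Matrix (Fin n) (Fin p) K), A.rank = r →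
      (∀ X : Matrix (Fin d) (Fin p) K, A * X ≠ B) →
      ∫⁻ θ, frob2 (B - A * ALG (Om θ) ((Om θ)ᴴ * A) ((Om θ)ᴴ * B)) ∂μ ≤
        C * ⨅ X : Matrix (Fin d) (Fin p) K, frob2 (B - A * X)) (c : ℝ) :
    ∫⁻ θ, ∫⁻ x, ∫⁻ M, loss (Om θ) (est hr hp ALG (Om θ)) c x M ∂(Measure.pi fun _ : Fin (r + 1) => gK K (Fin n))
      ∂(gK K (Fin r)) ∂μ ≤ C * ((Module.finrank ℝ K : ℝ≥0∞) * ((n - r : ℕ) : ℝ≥0∞)) := by
  have hm := loss_meas (r := r) Om hOm (fun θ => est hr hp ALG (Om θ)) (est_meas hr hp ALG hALG Om hOm) c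
  have hswap : ∫⁻ θ, ∫⁻ x, ∫⁻ M, loss (Om θ) (est hr hp ALG (Om θ)) c x M
      ∂(Measure.pi fun _ : Fin (r + 1) => gK K (Fin n)) ∂(gK K (Fin r)) ∂μ =
      ∫⁻ x, ∫⁻ M, ∫⁻ θ, loss (Om θ) (est hr hp ALG (Om θ)) c x M ∂μ
      ∂(Measure.pi fun _ : Fin (r + 1) => gK K (Fin n)) ∂(gK K (Fin r)) := by
    rw [lintegral_lintegral_swap (hm.lintegral_prod_right').aemeasurable]
    refine lintegral_congr fun x => ?_
    rw [lintegral_lintegral_swap]
    have h1 : Measurable fun s : Θ × (Fin (r + 1) → Fin n → K) =>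
        (((s.1, x), s.2) : (Θ × (Fin r → K)) × (Fin (r + 1) → Fin n → K)) := by fun_prop
    have h2 := hm.comp h1
    exact h2.aemeasurable
  rw [hswap]
  have hLI := hD2 K (r + 1) (Fin n) (by simpa using hrn)
  have hbound : ∀ x : Fin r → K, ∫⁻ M, ∫⁻ θ, loss (Om θ) (est hr hp ALG (Om θ)) c x M ∂μ
      ∂(Measure.pi fun _ : Fin (r + 1) => gK K (Fin n)) ≤
      C * ∫⁻ M, dist2 (fun k : Fin r => M k.succ) (M 0) ∂(Measure.pi fun _ : Fin (r + 1) => gK K (Fin n)) := by
    intro x
    rw [← lintegral_const_mul' _ _ hC]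
    refine lintegral_mono_ae ?_
    filter_upwards [hLI] with M hM
    have hG : LinearIndependent K (fun k : Fin r => M k.succ) := hM.comp _ (Fin.succ_injective _)
    have h1 := hsup (matA d (fun j : Fin r => M j.succ)) (matB p (∑ k, ((c : K) * x k) • M k.succ + M 0))
      (hF3a K r n d _ hr hG) (hF3e K r n d p M hp hM (fun k => (c : K) * x k))
    refine le_trans (lintegral_mono fun θ => loss_le hF3c hF3d hr hp ALG (Om θ) c x M) (le_trans h1 ?_)
    refine mul_le_mul_right ?_ _
    refine le_trans (hF3b K r n d p _ _ hr hp) ?_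
    exact dist2_shift _ _ _
  calc _ ≤ ∫⁻ _ : Fin r → K, C * ∫⁻ M, dist2 (fun k : Fin r => M k.succ) (M 0)
        ∂(Measure.pi fun _ : Fin (r + 1) => gK K (Fin n)) ∂(gK K (Fin r)) := lintegral_mono hbound
    _ = C * ∫⁻ M, dist2 (fun k : Fin r => M k.succ) (M 0)
        ∂(Measure.pi fun _ : Fin (r + 1) => gK K (Fin n)) := by
        rw [lintegral_const, measure_univ, mul_one]
    _ = _ := by
        congr 1
        have hF : Measurable fun M : Fin (r + 1) → Fin n → K => dist2 (fun k : Fin r => M k.succ) (M 0) := by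
          have : Measurable fun M : Fin (r + 1) → Fin n → K => ((M 0, fun k : Fin r => M k.succ) :
            (Fin n → K) × (Fin r → Fin n → K)) := by fun_prop
          have h0 : Measurable (fun p : (Fin n → K) × (Fin r → Fin n → K) => dist2 p.2 p.1) := dist2_meas
          have h2 := h0.comp this
          simp only [Function.comp_def] at h2
          exact h2
        rw [lintegral_cons (gK K (Fin n)) r _ hF]
        simp only [Fin.cons_zero, Fin.cons_succ]
        have hae := hD2 K r (Fin n) (by simpa using hrn.le)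
        have h1 : ∫⁻ S, ∫⁻ s, dist2 S s ∂(gK K (Fin n)) ∂(Measure.pi fun _ : Fin r => gK K (Fin n)) =
            ∫⁻ _ : Fin r → Fin n → K, (Module.finrank ℝ K : ℝ≥0∞) * ((n - r : ℕ) : ℝ≥0∞)
              ∂(Measure.pi fun _ : Fin r => gK K (Fin n)) := by
          refine lintegral_congr_ae ?_
          filter_upwards [hae] with S hS
          have := hD3 K r (Fin n) S hS (by simpa using hrn.le)
          rw [Fintype.card_fin] at this
          exact this
        rw [h1, lintegral_const, measure_univ, mul_one]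

end

end Pool.Agent.X19.SS
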