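import Pool.Agent.X19.SS.C
import Pool.Agent.X19.SS.Cons

set_option autoImplicit false

open MeasureTheory ProbabilityTheory Filter Topology
open scoped ENNReal

namespace Pool.Agent.X19.SS

section
variable {K : Type} [RCLike K] [MeasurableSpace K] [BorelSpace K]

/-- the risk of one coordinate for given sketch matrix -/
noncomputable def risk {r l : ℕ} (g : (Fin r → Fin l → K) × (Fin l → K) → K) (j : Fin r) (c : ℝ)
    (S : Fin r → Fin l → K) : ℝ≥0∞ :=
  ∫⁻ x, ∫⁻ z, ‖(c : K) * x j - g (S, ∑ k, ((c : K) * x k) • S k + z)‖ₑ ^ 2 ∂(gK K (Fin l)) ∂(gK K (Fin r))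

theorem risk_meas {r l : ℕ} (g : (Fin r → Fin l → K) × (Fin l → K) → K) (hg : Measurable g) (j : Fin r) (c : ℝ) :
    Measurable (risk g j c) := by
  unfold risk
  have h1 : Measurable fun q : ((Fin r → Fin l → K) × (Fin r → K)) × (Fin l → K) =>
      ‖(c : K) * q.1.2 j - g (q.1.1, ∑ k, ((c : K) * q.1.2 k) • q.1.1 k + q.2)‖ₑ ^ 2 := by
    have h2 : Measurable fun q : ((Fin r → Fin l → K) × (Fin r → K)) × (Fin l → K) =>
        (q.1.1, ∑ k, ((c : K) * q.1.2 k) • q.1.1 k + q.2) := by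
      refine Measurable.prodMk (by fun_prop) ?_
      refine Measurable.add (Finset.measurable_sum _ fun k _ => ?_) (by fun_prop)
      refine measurable_pi_lambda _ fun i => ?_
      simp only [Pi.smul_apply, smul_eq_mul]
      fun_prop
    exact ((Measurable.sub (by fun_prop) (hg.comp h2)).enorm).pow_const 2
  have h3 := h1.lintegral_prod_right' (ν := gK K (Fin l))
  have h4 := h3.lintegral_prod_right' (ν := gK K (Fin r))
  exact h4

theorem liminf_risk (hB2 : S_B2) (hB3 : S_B3) {m l : ℕ} (g : (Fin (m + 1) → Fin l → K) × (Fin l → K) → K)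
    (hg : Measurable g) (j : Fin (m + 1)) (s : Fin l → K) (S : Fin m → Fin l → K) :
    (Module.finrank ℝ K : ℝ≥0∞) * (dist2 S s)⁻¹ ≤
      liminf (fun n : ℕ => risk g j ((n : ℝ) + 1) (j.insertNth s S)) atTop := by
  have hmain : ∀ v : Fin m → K, (Module.finrank ℝ K : ℝ≥0∞) * (nsq (s + ∑ k, v k • S k))⁻¹ ≤
      liminf (fun n : ℕ => risk g j ((n : ℝ) + 1) (j.insertNth s S)) atTop := by
    intro v
    set V : Fin (m + 1) → K := j.insertNth 1 v with hV
    have hVj : V j = 1 := by simp [hV]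
    have hsum : ∑ k, V k • (j.insertNth s S : Fin (m + 1) → Fin l → K) k = s + ∑ k, v k • S k := by
      rw [Fin.sum_univ_succAbove _ j]
      simp [hV]
    have hle : ∀ n : ℕ, (Module.finrank ℝ K : ℝ≥0∞) /
        (nsq V / ENNReal.ofReal (((n : ℝ) + 1) ^ 2) + nsq (s + ∑ k, v k • S k)) ≤
        risk g j ((n : ℝ) + 1) (j.insertNth s S) := by
      intro n
      have h := t_C hB2 hB3 (m + 1) l (j.insertNth s S : Fin (m + 1) → Fin l → K)
        (fun t => g (j.insertNth s S, t)) (hg.comp (by fun_prop)) ((n : ℝ) + 1) (by positivity) V j hVj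
      rw [hsum] at h
      exact h
    have hlim : Tendsto (fun n : ℕ => (Module.finrank ℝ K : ℝ≥0∞) /
        (nsq V / ENNReal.ofReal (((n : ℝ) + 1) ^ 2) + nsq (s + ∑ k, v k • S k))) atTop
        (𝓝 ((Module.finrank ℝ K : ℝ≥0∞) / (0 + nsq (s + ∑ k, v k • S k)))) := by
      refine ENNReal.Tendsto.const_div ?_ (Or.inr (ENNReal.natCast_ne_top _))
      refine Tendsto.add ?_ tendsto_const_nhds
      have h1 : Tendsto (fun n : ℕ => ENNReal.ofReal (((n : ℝ) + 1) ^ 2)) atTop (𝓝 ∞) := by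
        refine ENNReal.tendsto_ofReal_nhds_top.2 ?_
        refine (tendsto_pow_atTop (two_ne_zero)).comp ?_
        exact tendsto_atTop_add_const_right _ _ tendsto_natCast_atTop_atTop
      have h2 : Tendsto (fun n : ℕ => nsq V / ENNReal.ofReal (((n : ℝ) + 1) ^ 2)) atTop (𝓝 (nsq V / ∞)) := by
        refine ENNReal.Tendsto.const_div h1 (Or.inr ?_)
        rw [nsq_eq]; exact ENNReal.ofReal_ne_top
      simpa using h2
    rw [zero_add, div_eq_mul_inv] at hlim
    rw [← hlim.liminf_eq]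
    exact liminf_le_liminf (Eventually.of_forall hle)
  unfold dist2
  rw [ENNReal.inv_iInf, ENNReal.mul_iSup]
  exact iSup_le hmain

end

end Pool.Agent.X19.SS
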