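import Pool.Agent.X19.SS.E

set_option autoImplicit false

open MeasureTheory ProbabilityTheory Filter Topology
open scoped ENNReal Matrix

namespace Pool.Agent.X19.SS

theorem split_pi {X A B : Type} [MeasurableSpace X] [MeasurableSpace A] [MeasurableSpace B] (μ : Measure X)
    (ν : Measure A) (ρ : Measure B) [IsProbabilityMeasure μ] [IsProbabilityMeasure ν] [IsProbabilityMeasure ρ]
    (Φ : X → A × B) (hΦ : MeasurePreserving Φ μ (ν.prod ρ)) (m : ℕ) (F : (Fin m → A) → (Fin m → B) → ℝ≥0∞)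
    (hF : Measurable fun p : (Fin m → A) × (Fin m → B) => F p.1 p.2) :
    ∫⁻ M, F (fun k => (Φ (M k)).1) (fun k => (Φ (M k)).2) ∂(Measure.pi fun _ : Fin m => μ) =
      ∫⁻ M₁, ∫⁻ M₂, F M₁ M₂ ∂(Measure.pi fun _ : Fin m => ρ) ∂(Measure.pi fun _ : Fin m => ν) := by
  have h1 : MeasurePreserving (fun (M : Fin m → X) k => Φ (M k)) (Measure.pi fun _ : Fin m => μ)
      (Measure.pi fun _ : Fin m => ν.prod ρ) := measurePreserving_pi _ _ fun _ => hΦ
  have h2 := measurePreserving_arrowProdEquivProdArrow A B (Fin m) (fun _ => ν) (fun _ => ρ)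
  have h3 := h2.comp h1
  have h4 := h3.lintegral_comp hF
  rw [lintegral_prod _ hF.aemeasurable] at h4
  exact h4

/-- superadditivity of liminf for the affine combination which we need -/
theorem liminf_comb {r : ℕ} (A B τ : ℝ≥0∞) (hB : B ≠ ∞) (ρ : ℕ → Fin r → ℝ≥0∞)
    (h : ∀ j, τ ≤ liminf (fun n => ρ n j) atTop) :
    A + B * (1 + r * τ) ≤ liminf (fun n => A + B * (1 + ∑ j, ρ n j)) atTop := by
  have h1 : (r : ℝ≥0∞) * τ ≤ liminf (fun n => ∑ j, ρ n j) atTop := by
    have h2 : ∑ j, liminf (fun n => ρ n j) atTop ≤ liminf (fun n => ∑ j, ρ n j) atTop := by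
      have h3 := lintegral_liminf_le (μ := (Measure.count : Measure (Fin r))) (f := ρ) (u := atTop)
        (fun n => measurable_of_finite _)
      simp only [lintegral_count, tsum_fintype] at h3
      exact h3
    refine le_trans ?_ h2
    calc (r : ℝ≥0∞) * τ = ∑ _j : Fin r, τ := by simp
      _ ≤ _ := Finset.sum_le_sum fun j _ => h j
  have hmono : Monotone fun t : ℝ≥0∞ => A + B * (1 + t) := by
    intro s t hst
    dsimp only
    gcongr
  have hcont : Continuous fun t : ℝ≥0∞ => A + B * (1 + t) := by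
    have h9 : Continuous fun t : ℝ≥0∞ => 1 + t := by fun_prop
    exact continuous_const.add ((ENNReal.continuous_const_mul hB).comp h9)
  have h4 := hmono.map_liminf_of_continuousAt (F := atTop) (fun n => ∑ j, ρ n j) hcont.continuousAt
  have h5 : (fun t : ℝ≥0∞ => A + B * (1 + t)) ((r : ℝ≥0∞) * τ) ≤
      (fun t : ℝ≥0∞ => A + B * (1 + t)) (liminf (fun n => ∑ j, ρ n j) atTop) := hmono h1
  exact le_trans h5 (le_of_eq h4)

section
variable {K : Type} [RCLike K] [MeasurableSpace K] [BorelSpace K]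

/-- the loss for given data -/
noncomputable def loss {n l r : ℕ} (Om : Matrix (Fin n) (Fin l) K)
    (u : (Fin r → Fin l → K) × (Fin l → K) → (Fin r → K)) (c : ℝ) (x : Fin r → K)
    (M : Fin (r + 1) → Fin n → K) : ℝ≥0∞ :=
  nsq (M 0 + ∑ k : Fin r, ((c : K) * x k - u (fun k => Omᴴ *ᵥ M k.succ,
    Omᴴ *ᵥ (∑ k, ((c : K) * x k) • M k.succ + M 0)) k) • M k.succ)

theorem transform (hB2 : S_B2) {l q r : ℕ} (Om : Matrix (Fin (l + q)) (Fin l) K)
    (U : EuclideanSpace K (Fin (l + q)) ≃ₗᵢ[K] EuclideanSpace K (Fin l ⊕ Fin q)) (R : Matrix (Fin l) (Fin l) K)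
    (hR : ∀ y : Fin (l + q) → K, Omᴴ *ᵥ y =
      R *ᵥ (fun i => (WithLp.ofLp (U (WithLp.toLp 2 y)) : _ → K) (Sum.inl i)))
    (u : (Fin r → Fin l → K) × (Fin l → K) → (Fin r → K)) (hu : Measurable u) (c : ℝ) :
    Measurable (fun p : (Fin r → Fin l → K) × (Fin l → K) => u (fun k => R *ᵥ p.1 k, R *ᵥ p.2)) ∧
    ∫⁻ x, ∫⁻ M, loss Om u c x M ∂(Measure.pi fun _ : Fin (r + 1) => gK K (Fin (l + q))) ∂(gK K (Fin r)) =
      J q (fun p => u (fun k => R *ᵥ p.1 k, R *ᵥ p.2)) c := by
  have hgm : Measurable (fun p : (Fin r → Fin l → K) × (Fin l → K) => u (fun k => R *ᵥ p.1 k, R *ᵥ p.2)) := by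
    refine hu.comp (Measurable.prodMk ?_ ?_)
    · refine measurable_pi_lambda _ fun k => measurable_pi_lambda _ fun i => ?_
      simp only [Matrix.mulVec, dotProduct]
      fun_prop
    · refine measurable_pi_lambda _ fun i => ?_
      simp only [Matrix.mulVec, dotProduct]
      fun_prop
  refine ⟨hgm, ?_⟩
  set g : (Fin r → Fin l → K) × (Fin l → K) → (Fin r → K) :=
    fun p => u (fun k => R *ᵥ p.1 k, R *ᵥ p.2) with hg
  have hm := err_meas g hgm c
  unfold J
  refine lintegral_congr fun x => ?_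
  -- the block map
  set Φ : (Fin (l + q) → K) → (Fin l → K) × (Fin q → K) := fun y =>
    (fun i => (WithLp.ofLp (U (WithLp.toLp 2 y)) : _ → K) (Sum.inl i),
     fun i => (WithLp.ofLp (U (WithLp.toLp 2 y)) : _ → K) (Sum.inr i)) with hΦ
  have hΦp : MeasurePreserving Φ (gK K (Fin (l + q))) ((gK K (Fin l)).prod (gK K (Fin q))) := by
    have h1 := hB2 K (Fin (l + q)) (Fin l ⊕ Fin q) U
    have h2 := measurePreserving_sumPiEquivProdPi (ι := Fin l) (ι' := Fin q) (X := fun _ => K)
      (fun _ => stdGaussian K)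
    exact h2.comp h1
  have hΦadd : ∀ y z, Φ (y + z) = Φ y + Φ z := by
    intro y z
    have : U (WithLp.toLp 2 (y + z)) = U (WithLp.toLp 2 y) + U (WithLp.toLp 2 z) := by
      rw [← map_add]; rfl
    simp only [hΦ, this]
    rfl
  have hΦsmul : ∀ (a : K) y, Φ (a • y) = a • Φ y := by
    intro a y
    have : U (WithLp.toLp 2 (a • y)) = a • U (WithLp.toLp 2 y) := by
      rw [← map_smul]; rfl
    simp only [hΦ, this]
    rfl
  have hΦsum : ∀ (w : Fin r → K) (Y : Fin r → Fin (l + q) → K), Φ (∑ k, w k • Y k) = ∑ k, w k • Φ (Y k) := by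
    intro w Y
    let L : (Fin (l + q) → K) →ₗ[K] (Fin l → K) × (Fin q → K) :=
      { toFun := Φ, map_add' := hΦadd, map_smul' := hΦsmul }
    have := map_sum L (fun k => w k • Y k) Finset.univ
    simp only [map_smul] at this
    exact this
  have hΦn : ∀ y, nsq y = nsq (Φ y).1 + nsq (Φ y).2 := by
    intro y
    have h1 : ‖U (WithLp.toLp 2 y)‖ ^ 2 = ‖(WithLp.toLp 2 y : EuclideanSpace K (Fin (l + q)))‖ ^ 2 := by
      rw [LinearIsometryEquiv.norm_map]
    rw [EuclideanSpace.norm_sq_eq, EuclideanSpace.norm_sq_eq, Fintype.sum_sum_type] at h1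
    rw [nsq_eq, nsq_eq, nsq_eq, ← ENNReal.ofReal_add (Finset.sum_nonneg fun i _ => by positivity)
      (Finset.sum_nonneg fun i _ => by positivity)]
    congr 1
    exact h1.symm
  have hF : Measurable fun p : (Fin (r + 1) → Fin l → K) × (Fin (r + 1) → Fin q → K) =>
      nsq (p.1 0 + ∑ k : Fin r, err g c x p.1 k • p.1 k.succ) +
      nsq (p.2 0 + ∑ k : Fin r, err g c x p.1 k • p.2 k.succ) := by
    have hm1 : Measurable fun M : Fin (r + 1) → Fin l → K => err g c x M := hm.comp measurable_prodMk_left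
    have hm2 : ∀ k : Fin r, Measurable fun p : (Fin (r + 1) → Fin l → K) × (Fin (r + 1) → Fin q → K) =>
        err g c x p.1 k := fun k => ((measurable_pi_apply k).comp hm1).comp measurable_fst
    refine Measurable.add ?_ ?_
    · refine nsq_meas.comp (Measurable.add (by fun_prop) (Finset.measurable_sum _ fun k _ => ?_))
      refine measurable_pi_lambda _ fun i => ?_
      simp only [Pi.smul_apply, smul_eq_mul]
      exact (hm2 k).mul (by fun_prop)
    · refine nsq_meas.comp (Measurable.add (by fun_prop) (Finset.measurable_sum _ fun k _ => ?_))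
      refine measurable_pi_lambda _ fun i => ?_
      simp only [Pi.smul_apply, smul_eq_mul]
      exact (hm2 k).mul (by fun_prop)
  rw [← split_pi (gK K (Fin (l + q))) (gK K (Fin l)) (gK K (Fin q)) Φ hΦp (r + 1)
    (fun M N => nsq (M 0 + ∑ k : Fin r, err g c x M k • M k.succ) +
      nsq (N 0 + ∑ k : Fin r, err g c x M k • N k.succ)) hF]
  refine lintegral_congr fun M => ?_
  have herr : ∀ k : Fin r, (c : K) * x k - u (fun k => Omᴴ *ᵥ M k.succ,
      Omᴴ *ᵥ (∑ k, ((c : K) * x k) • M k.succ + M 0)) k = err g c x (fun k => (Φ (M k)).1) k := by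
    intro k
    unfold err
    rw [hg]
    dsimp only
    congr 2
    have h1 : ∀ y, Omᴴ *ᵥ y = R *ᵥ (Φ y).1 := fun y => hR y
    congr 1
    congr 1
    · funext k
      exact h1 _
    · rw [h1, hΦadd, hΦsum]
      congr 1
      rw [Prod.fst_add, Prod.fst_sum]
      rfl
  unfold loss
  simp only [herr]
  rw [hΦn, hΦadd, hΦsum]
  congr 1
  · rw [Prod.fst_add, Prod.fst_sum]
    rfl
  · rw [Prod.snd_add, Prod.snd_sum]
    rfl

end

end Pool.Agent.X19.SS
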